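import Pool.Agent.U724.CH.GenV

/-!
# MP_2eeeac_ag: the growth of the cycles on powers of `X` which are generated by the Albanese kernel

Let `X` be a smooth projective variety over the field of algebraic numbers with the sign conjecture (for
instance a surface, or an abelian variety), `F ^ 2 (X)` the kernel of the Albanese map on the zero-cycles
of degree zero; it is torsion-free (Roitman), so it is enough to consider `V = F ^ 2 (X) ⊗ ℚ`. Let
`δ (n)` be the dimension of the space of the cycles on `X ^ n` (all dimensions, rational coefficients,
modulo rational equivalence) which are sums of images of elements of `F ^ 2 (X)` under correspondences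
from `X` to `X ^ n`, a number or infinity, and `ρ (n)` the (finite) rank of the group of the
cycles on `X ^ n` modulo numerical equivalence.

Theorem. (1) `δ (n) / ρ (n)` converges to a natural number `N` or to infinity, and `N = 0` if and only if
`F ^ 2 (X) = 0`. (2) Let `f` be a self-correspondence of `X` which is the identity on `F ^ 2 (X)`, and
let `f = e_1 + ... + e_s` modulo numerical equivalence with simple parts `e_i` of ranks `r_i`. If
`F ^ 2 (X) ≠ 0` then `N` is infinite or `N ≥ r_i` for some `i`.

For a surface `X` the projector `f` to the transcendental part of the motive (Kahn, Murre, Pedrini) is the
identity on `F ^ 2 (X)`, and it is a sum of simple parts modulo numerical equivalence (Jannsen). So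
`F ^ 2 (X) = 0`, the conjecture of the problem for `X`, if and only if `δ (n) < (r - ε) ρ (n)` for
infinitely many `n`, for one `ε > 0`, where `r` is the smallest rank of a simple constituent of the
transcendental part; for instance `r = b_2 - ρ_X` if the transcendental part of the cohomology is
irreducible, as for K3 surfaces (Zarhin). If `F ^ 2 (X) ≠ 0` then there are at least `(r - ε) ρ (n)`
linearly independent cycles on `X ^ n` generated by `F ^ 2 (X)` for all large `n`. The motive of `X` need
not be finite-dimensional.

Idea of the proof. Let `N` be finite. Then (library) products of `N` numerically trivial correspondences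
between powers of `X` act as zero on the generated cycles. Let `z ≠ 0` be in `F ^ 2 (X)` and `d + 1` the
smallest number such that the products of `d + 1` numerically trivial correspondences kill `z`. Since
`z = f z`, for some `i` the cycle `w = e_i z` is not killed by all products of `d` numerically trivial
correspondences, and `e_i w = w` modulo cycles which are killed by these. If `φ` is a correspondence from
`X` to `X ^ n` such that `φ w` is killed by these products then `φ e_i` is numerically trivial, because
`e_i` is simple. So `δ (n)` is at least the dimension of the space of the correspondences `φ e_i` modulo
numerical equivalence, which is asymptotically `r_i ρ (n)` (library: the asymptotic multiplicity is the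
rank).

The setting. The Chow group `Chow X` of a scheme `X` (cycles of all dimensions with rational
coefficients modulo rational equivalence) is defined with the order of vanishing of Mathlib.
Intersection theory enters through the category `C` of Chow motives over `k` with the correspondences
of all degrees as morphisms: a rigid symmetric monoidal category with objects `h (X)` for the varieties
`X` over `k`, self-dual, with `Hom (1, h (X)) = Chow X` and `h (X × Y) = h (X) ⊗ h (Y)` (structure
`Motives`). `R` is a Weil cohomology with coefficients extended to an algebraically closed field `K`, a
tensor functor from `C` to super vector spaces; `R.CPlus` is the sign conjecture. The theorem is stated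
for an arbitrary space `V` of cycles on `X`; the case of the problem is `V = F ^ 2 (X) ⊗ ℚ`.
-/

set_option autoImplicit false

open CategoryTheory MonoidalCategory Module
open Pool.Agent.Y112.SR Pool.Agent.Y112.KD Pool.Agent.N64.AF
open Pool.Agent.U724.NT Pool.Agent.U724.CH

namespace Pool.Agent.Results.MP_2eeeac_ag.AlbaneseKernelGrowth

universe u u' v w

/-- The law for the cycles on the powers of `X` which are generated by a space `V` of cycles on `X`;
`N = 0` if and only if `V = 0`, and if `V ≠ 0` then `N` is infinite or at least the rank of one of the
simple constituents of a correspondence which is the identity on `V`. -/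
theorem result {k : Type u} [Field k] {C : Type u'} [Category.{v} C] [Preadditive C]
    [MonoidalCategory C] [MonoidalPreadditive C] [SymmetricCategory C] [RightRigidCategory C]
    [Linear ℚ C] [MonoidalLinear ℚ C] (M : Motives k C)
    {K : Type w} [Field K] [IsAlgClosed K] [Algebra ℚ K] (R : SuperRealisation C K)
    (X : Sch k) (hX : M.IsVar X) (hne : Nonempty X.left) (hs : R.CPlus (M.h X))
    (V : Submodule ℚ (Chow X.left)) :
    ∃ N : ℕ∞, HasLaw ℚ (M.h X) (fun n => dimE ℚ (M.gen hX V n)) N ∧ (N = 0 ↔ V = ⊥) ∧
      ∀ (s : ℕ) (f : Chow (prod X X).left) (e : Fin s → Chow (prod X X).left)
        (r : Fin s → ℕ), M.IsDecomp R hX f e r →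
        (∀ z ∈ V, M.push hX hX (M.corr hX hX f) z = z) → N ≠ ⊤ → (∀ i, N < r i) → V = ⊥ :=
  M.gen_law R hX hne hs V

end Pool.Agent.Results.MP_2eeeac_ag.AlbaneseKernelGrowth
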