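import Pool.Agent.U672.AJ.Maps

/-!
# Injectivity of the Albanese map over `ℚ̄` by cutting and pasting

`D` is the triangulated category of geometric motives over `ℚ̄` with rational coefficients, in the form of its
standard properties (`PasteFacts`). For an object `A` let `CH m A` be the group of the morphisms
`A → ℚ(m)[2m]` whose Hodge realization is zero, and `J m A = Ext¹(ℚ, H^(2m-1)(A)(m))`; the realization in the
derived category of mixed Hodge structures gives the map `aj m : CH m A → J m A` (`AbelJacobi`). For a
smooth projective variety `X` of dimension `d` and `m = d` it is the Albanese map of the zero-cycles of degree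
zero, tensored with `ℚ`. By the theorem of Roitman the kernel `F² (X)` of the Albanese map (`Albanese`) is
torsion-free.

**Theorem.** Let `X` be a smooth projective variety over `ℚ̄`, of any dimension, which can be obtained by cutting
and pasting and by finite free coverings from
* the closed subschemes of affine spaces, of any dimension, defined by binomials and at most one trinomial
  (systems of excess at most one; the *excess* of a system of polynomials is the sum of
  (number of terms - 2) over its members with at least three terms), singular or not,
* all schemes of dimension at most one,
* all smooth proper schemes whose rational Abel-Jacobi maps are injective in all codimensions.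
Then the Albanese map of `X` is injective.

The schemes which are cut and pasted need not be smooth or proper, only `X` is. More generally, if the rational
Abel-Jacobi maps are injective for all smooth proper schemes over `ℚ̄` of dimension at most `N`, then the
Albanese map is injective for all such `X` with `N` instead of one: for instance hypersurfaces with at
most `N + 2` terms in affine spaces of any dimension can be used. For `N = 2` the hypothesis is the
injectivity of the Albanese maps of surfaces, the first open case.
-/

set_option autoImplicit false

open CategoryTheory MonoidalCategory AlgebraicGeometry Opposite Pool.Agent.TH137.DG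
  Pool.Agent.Y116.UV Pool.Agent.Z125.UN Pool.Agent.U672.SF Pool.Agent.U672.AJ

namespace Pool.Agent.Results.MP_2eeeac_ag.CutAndPaste

universe v u w

/-- The kernels `F2 X = F² (X)` of the Albanese maps of the smooth proper schemes `X`, and the classes of
their elements in the groups of homologically trivial cycles of codimension `d = dim X` modulo rational
equivalence with rational coefficients.

* `roitman`: the class is injective, because `F2 X` has no torsion (Roitman);
* `albanese`: the Abel-Jacobi invariant of a zero-cycle of degree zero is its image in the Albanese variety, so
  it vanishes for the elements of `F2 X`. -/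
structure Albanese {k : Type} [Field k] {C : Type u} [Category.{v} C]
    [MonoidalCategory C] [SymmetricCategory C] [Preadditive C] [Linear ℚ C]
    [Limits.HasZeroObject C] [HasShift C ℤ] [∀ n : ℤ, (shiftFunctor C n).Additive]
    [Pretriangulated C] {D : Motives k C} (S : AbelJacobi.{v, u, w} D) where
  F2 : Sch k → Type
  cls : ∀ (X : Sch k) (d : ℕ), topologicalKrullDim X.left = d → F2 X →
    (S.CH d).obj (op (D.M X))
  roitman : ∀ (X : Sch k) (d : ℕ) (h : topologicalKrullDim X.left = d), SmoothProper X →
    Function.Injective (cls X d h)
  albanese : ∀ (X : Sch k) (d : ℕ) (h : topologicalKrullDim X.left = d), SmoothProper X →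
    ∀ z, ((S.aj d).app (op (D.M X))).hom (cls X d h z) = 0

/-- **Theorem.** (1) Let the rational Abel-Jacobi maps of the smooth proper schemes over `ℚ̄` of dimension at most
one be injective (this is known). If a smooth proper scheme `X` of dimension `d` is pasted from systems of
excess at most one, schemes of dimension at most one and smooth proper schemes with injective Abel-Jacobi
maps, then the Albanese map of `X` is injective: its kernel `F2 X` has only one element. (2) The same with
`N` instead of one. -/
theorem result {C : Type u} [Category.{v} C]
    [MonoidalCategory C] [SymmetricCategory C] [Preadditive C] [Linear ℚ C]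
    [Limits.HasZeroObject C] [HasShift C ℤ] [∀ n : ℤ, (shiftFunctor C n).Additive]
    [Pretriangulated C] {D : Motives (AlgebraicClosure ℚ) C} (hD : PasteFacts D)
    (S : AbelJacobi.{v, u, w} D) (T : Albanese S)
    (hcurves : ∀ X, SmoothProper X → topologicalKrullDim X.left ≤ (1 : ℕ) →
      IsInjective S (D.M X)) :
    (∀ (X : Sch (AlgebraicClosure ℚ)) (d : ℕ), SmoothProper X → topologicalKrullDim X.left = d →
      Pasted 1 (fun Y => SmoothProper Y ∧ IsInjective S (D.M Y)) X → Subsingleton (T.F2 X)) ∧
    ∀ N : ℕ, (∀ X, SmoothProper X → topologicalKrullDim X.left ≤ N → IsInjective S (D.M X)) →
      ∀ (X : Sch (AlgebraicClosure ℚ)) (d : ℕ), SmoothProper X →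
        topologicalKrullDim X.left = d →
        Pasted N (fun Y => SmoothProper Y ∧ IsInjective S (D.M Y)) X →
          Subsingleton (T.F2 X) := by
  have key : ∀ N : ℕ,
      (∀ X, SmoothProper X → topologicalKrullDim X.left ≤ N → IsInjective S (D.M X)) →
      ∀ (X : Sch (AlgebraicClosure ℚ)) (d : ℕ), SmoothProper X →
        topologicalKrullDim X.left = d →
        Pasted N (fun Y => SmoothProper Y ∧ IsInjective S (D.M Y)) X →
          Subsingleton (T.F2 X) := by
    intro N h X d hp hd hX
    have h1 : IsInjective S (D.M X) := summand_inj (fun Y hY => hY.2)
      (pasted_summand hD (fun Y hY => hY.1) (fun Y h1 h2 => ⟨h1, h Y h1 h2⟩) X hX hp)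
    refine ⟨fun a b => T.roitman X d hd hp (h1 d ?_)⟩
    rw [T.albanese X d hd hp a, T.albanese X d hd hp b]
  exact ⟨key 1 hcurves, key⟩

end Pool.Agent.Results.MP_2eeeac_ag.CutAndPaste
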