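import Pool.Agent.U935.AJR.Main

/-!
# The Albanese map on zero-cycles and one-cycles on rational fourfolds

`𝒱` is a class of smooth proper varieties over a field `k` (for the problem, the smooth projective
varieties over the algebraic numbers) which is closed under products. `C` has the formal properties
of the Chow groups with rational coefficients of these varieties (`IsChowProj`), `H` those of a Weil
cohomology theory with cycle class maps (`IsWeilProj`), and `A` those of the Abel-Jacobi maps
(`AbelJacobi`, `JExact`). The Abel-Jacobi map on the zero-cycles of degree zero of `X` is the Albanese
map, so `AJInj A X (dim X)` says that the Albanese map of `X` is injective up to torsion, which by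
Roitman is the statement of the problem for `X`.

The theorem: the following are equivalent.
* The Albanese map is injective on zero-cycles, for all varieties.
* It is injective for all surfaces.
* The Abel-Jacobi map is injective on one-cycles, for all varieties of the class `Ratl` (the smallest
  class which contains the varieties without homologically trivial cycles and is closed under
  blow-ups in smooth centres and under domination; it contains the unirational varieties).
* The Abel-Jacobi map is injective on one-cycles for the members of a class `S` inside `Ratl`, such
  that every surface is dominated by the centre of a blow-up `Y ∈ S`.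

The class `S` may consist of rational fourfolds: a surface `T` in `ℙ^5` is projected to `ℙ^4` from a
general point; the image has finitely many double points, with two smooth branches which meet
transversally, so the strict transform `X` of the image in the blow-up `P` of `ℙ^4` at these points
is smooth (it is the blow-up of `T` in finitely many points), and `Y` is the blow-up of `P` along
`X`. Hence Beilinson's conjecture that the Albanese maps over the algebraic numbers are injective is
equivalent to the injectivity of the Abel-Jacobi map on the one-cycles of rational fourfolds over
the algebraic numbers. For rational varieties of dimension at most three the Abel-Jacobi maps are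
known to be injective, so this is the first open case for rational varieties.
-/

set_option autoImplicit false

namespace Pool.Agent.Results.MP_2eeeac_ag.RationalFourfolds

open Pool.Agent.H914 Pool.Agent.H914.VarClass Pool.Agent.W492.BB Pool.Agent.U644.BBL
  Pool.Agent.U435.BB Pool.Agent.TH133 Pool.Agent.U935.BBR Pool.Agent.U935.AJR

universe u v w

/-- Assume that the functor `J` is exact, and the theorems of Bertini and Lefschetz for smooth
hypersurface sections through zero-cycles. Let `S` be a class of varieties in the class `Ratl`, such
that every surface `T` is dominated by the centre `X` of a blow-up `Y ∈ S`. Then the following are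
equivalent: the Albanese map on zero-cycles (rational coefficients) is injective for all varieties;
it is injective for all surfaces; the Abel-Jacobi map is injective on the one-cycles of all varieties
of the class `Ratl`; it is injective on the one-cycles of all `Y ∈ S`. -/
theorem result {k : Type u} [Field k] {𝒱 : VarClass k} {C : TheoryData.{u, v, 0} 𝒱 ℚ} {K : Type w}
    [Field K] {H : WeilTheoryData.{u, v, w} C K} [IsChowProj C] [IsWeilProj H] (A : AbelJacobi H)
    (hJ : JExact A) (Amp : ∀ X : 𝒱.Obj, C.A X → Prop)
    (hA : ∀ X : 𝒱.Obj, 2 ≤ X.dim → ∃ D, Amp X D) (hs : HasPointSections H Amp)
    (S : Set 𝒱.Obj)
    (hS : ∀ T : 𝒱.Obj, T.dim = 2 → ∃ X, Dominates C X T ∧ ∃ Y ∈ S, ∃ P, BlowUpOf C X P Y)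
    (hS' : ∀ Y ∈ S, Ratl H Y) :
    List.TFAE [∀ X : 𝒱.Obj, AJInj A X X.dim,
      ∀ T : 𝒱.Obj, T.dim = 2 → AJInj A T 2,
      ∀ Y : 𝒱.Obj, Ratl H Y → 1 ≤ Y.dim → AJInj A Y (Y.dim - 1),
      ∀ Y ∈ S, AJInj A Y (Y.dim - 1)] :=
  tfae_zeroCycles A hJ Amp hA hs S hS hS'

end Pool.Agent.Results.MP_2eeeac_ag.RationalFourfolds
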