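import Pool.Agent.U3.RG.Main

/-!
# Zero-cycles on products and regular varieties

The kernel of `CH_0(X × Y) → CH_0(X) ⊕ CH_0(Y)` (rational coefficients) is a direct summand of the
zero-cycles of a variety `T` with `H^1(T) = 0`: a model of the quotient `(X' × Y') / G` by the
diagonal, for Galois closures `X'`, `Y'` of covers of projective spaces by `X` and `Y` with the same
doubly transitive group `G`. Consequence for the injectivity of Albanese maps.
-/

set_option autoImplicit false

universe u v w

namespace Pool.Agent.Results.MP_2eeeac_ag.RegularVarieties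

open Pool.Agent.H914 Pool.Agent.H914.VarClass Pool.Agent.H914.VarClass.Obj Pool.Agent.W492.BB
  Pool.Agent.TH133 Pool.Agent.U3.RG

/-- **Zero-cycles on products and regular varieties.** Assume `HasCovers` (known over an algebraically
closed field of characteristic zero).

* For all `X`, `Y` of positive dimension there are a variety `T` with `H^1(T) = 0`,
  `dim T = dim (X × Y)`, and correspondences `Γ` from `X × Y` to `T` and `Δ` back, of degree zero,
  such that `Δ_* Γ_* z = z` for all zero-cycles `z` on `X × Y` whose push-forwards to `X` and to `Y`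
  are zero.
* All zero-cycles of degree zero on all varieties with `H^1 = 0` are zero (with rational
  coefficients) if and only if the Albanese map is injective for all varieties in the class
  `Generated`, which contains all varieties with `H^1 = 0` or with injective Albanese map (such as
  curves) and is closed under products and domination. -/
theorem result {k : Type u} [Field k] {𝒱 : VarClass k} {C : TheoryData.{u, v, 0} 𝒱 ℚ}
    [IsChowProj C] {K : Type w} [Field K] {H : WeilTheoryData.{u, v, w} C K} [IsWeilProj H]
    (hcov : HasCovers H) {A : AlbaneseMaps C} (hA : IsAlbanese H A) :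
    (∀ X Y : 𝒱.Obj, 0 < X.dim → 0 < Y.dim →
      ∃ (T : 𝒱.Obj) (Γ : C.A ((X.prod Y).prod T)) (Δ : C.A (T.prod (X.prod Y))),
        IsRegular H T ∧ T.dim = (X.prod Y).dim ∧ C.Deg (T.dim : ℤ) Γ ∧ C.Deg (T.dim : ℤ) Δ ∧
        ∀ z : C.A (X.prod Y), IsZeroCycle C z → C.down (fst X Y) z = 0 →
          C.down (snd X Y) z = 0 → C.act Δ (C.act Γ z) = z) ∧
    ((∀ T : 𝒱.Obj, IsRegular H T → ∀ z : C.A T, IsZeroCycle C z → H.cl z = 0 → z = 0) ↔
      ∀ X : 𝒱.Obj, Generated H A X → AlbInj H A X) :=
  ⟨fun _ _ hX hY => exists_regular hcov hX hY, regular_iff hcov hA⟩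

end Pool.Agent.Results.MP_2eeeac_ag.RegularVarieties
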